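import Pool.Agent.H17.SQA.Stmts

/-!
# SQA, row CWL: asymptotic lower bound for the conjectured value
-/

set_option autoImplicit false

namespace Pool.SQA

open Finset Pool.CST Filter

namespace CWL25

theorem mon_pos (n D : ℕ) : 0 < mon n D := by
  unfold mon
  exact Nat.choose_pos (Nat.le_add_left _ _)

theorem lim_const (d : ℕ) :
    (1 / (((2 * d).factorial : ℕ) : ℝ)) / (1 / ((d.factorial : ℕ) : ℝ)) ^ 2 =
      1 / (((2 * d).choose d : ℕ) : ℝ) := by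
  have h1 := Nat.choose_mul_factorial_mul_factorial (show d ≤ 2 * d by omega)
  have h2 : 2 * d - d = d := by omega
  rw [h2] at h1
  have h3 : (((2 * d).choose d : ℕ) : ℝ) * (d.factorial : ℝ) * (d.factorial : ℝ) =
      ((2 * d).factorial : ℝ) := by exact_mod_cast h1
  have h4 : (0 : ℝ) < (d.factorial : ℝ) := by exact_mod_cast Nat.factorial_pos d
  have h5 : (0 : ℝ) < (((2 * d).choose d : ℕ) : ℝ) := by
    exact_mod_cast Nat.choose_pos (show d ≤ 2 * d by omega)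
  rw [← h3]
  field_simp

end CWL25

open CWL25 in
theorem t_cwl (hB : CWBStmt) (hM : MONStmt) : CWLStmt := by
  intro d ε hd hε
  obtain ⟨c, hc⟩ : ∃ c : ℝ, c = 1 / (((2 * d).choose d : ℕ) : ℝ) := ⟨_, rfl⟩
  have hd0 : (0 : ℝ) < (d.factorial : ℝ) := by exact_mod_cast Nat.factorial_pos d
  have hl1 := hM (2 * d)
  have hl2 := hM d
  have hl3 : Tendsto (fun n : ℕ => ((mon n (2 * d) : ℝ) / (n : ℝ) ^ (2 * d)) /
      ((mon n d : ℝ) / (n : ℝ) ^ d) ^ 2) atTop (nhds c) := by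
    rw [hc, ← lim_const d]
    exact hl1.div (hl2.pow 2) (by positivity)
  have hl4 : Tendsto (fun n : ℕ => ((mon n d : ℝ) / (n : ℝ) ^ d)⁻¹ * ((n : ℝ) ^ d)⁻¹) atTop
      (nhds 0) := by
    have h1 : Tendsto (fun n : ℕ => ((n : ℝ) ^ d)⁻¹) atTop (nhds 0) :=
      tendsto_inv_atTop_zero.comp ((tendsto_pow_atTop (by omega)).comp
        tendsto_natCast_atTop_atTop)
    have h2 := (hl2.inv₀ (by positivity)).mul h1
    simpa using h2
  have hl5 : Tendsto (fun n : ℕ => 2 * (((mon n (2 * d) : ℝ) / (n : ℝ) ^ (2 * d)) /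
      ((mon n d : ℝ) / (n : ℝ) ^ d) ^ 2) - ((mon n d : ℝ) / (n : ℝ) ^ d)⁻¹ * ((n : ℝ) ^ d)⁻¹)
      atTop (nhds (2 * c)) := by
    have h1 := (hl3.const_mul 2).sub hl4
    rwa [sub_zero] at h1
  have hev := (tendsto_order.1 hl5).1 (2 * c - ε ^ 2) (by nlinarith [sq_nonneg ε, pow_pos hε 2])
  obtain ⟨n1, hn1⟩ := eventually_atTop.1 hev
  refine ⟨max n1 1, fun n hn => ?_⟩
  have hn1' : 1 ≤ n := (le_max_right _ _).trans hn
  have h1 := hn1 n ((le_max_left _ _).trans hn)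
  obtain ⟨hs1, hs2⟩ := hB n d hn1'
  have hn0 : (0 : ℝ) < (n : ℝ) := by exact_mod_cast hn1'
  obtain ⟨N, hN⟩ : ∃ N : ℝ, N = (mon n d : ℝ) := ⟨_, rfl⟩
  obtain ⟨N2, hN2⟩ : ∃ N2 : ℝ, N2 = (mon n (2 * d) : ℝ) := ⟨_, rfl⟩
  obtain ⟨s, hs⟩ : ∃ s : ℝ, s = (cw n d : ℝ) := ⟨_, rfl⟩
  have hNpos : 0 < N := by rw [hN]; exact_mod_cast mon_pos n d
  have hs0 : 0 ≤ s := by rw [hs]; positivity
  have hsN : s ≤ N := by rw [hs, hN]; exact_mod_cast hs1
  have hmain : N2 + s * (s - 1) / 2 ≤ s * N := by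
    have h3 : ((mon n (2 * d) + (cw n d).choose 2 : ℕ) : ℝ) ≤ ((cw n d * mon n d : ℕ) : ℝ) := by
      exact_mod_cast hs2
    push_cast at h3
    rw [Nat.cast_choose_two] at h3
    rw [hN2, hs, hN]
    exact h3
  have h2 : 2 * c - ε ^ 2 < 2 * (N2 / N ^ 2) - 1 / N := by
    have h3 : (N2 / (n : ℝ) ^ (2 * d)) / (N / (n : ℝ) ^ d) ^ 2 = N2 / N ^ 2 := by
      rw [div_pow, ← pow_mul, mul_comm d 2]
      field_simp
    have h4 : (N / (n : ℝ) ^ d)⁻¹ * ((n : ℝ) ^ d)⁻¹ = 1 / N := by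
      field_simp
    rw [← hN2, ← hN, h3, h4] at h1
    exact h1
  have hσ : (1 - s / N) ^ 2 ≤ 1 - 2 * c + ε ^ 2 := by
    have h3 : 2 * (N2 / N ^ 2) - 1 / N ≤ 2 * (s / N) - (s / N) ^ 2 := by
      have h4 : 2 * (N2 / N ^ 2) - 1 / N = (2 * N2 - N) / N ^ 2 := by
        field_simp
      have h5 : 2 * (s / N) - (s / N) ^ 2 = (2 * s * N - s ^ 2) / N ^ 2 := by
        field_simp
      rw [h4, h5]
      apply div_le_div_of_nonneg_right _ (by positivity)
      nlinarith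
    nlinarith
  have hx : 0 ≤ 1 - 2 * c := by
    have h3 : 2 ≤ (2 * d).choose d := by
      have h4 : (2 * d).choose 1 ≤ (2 * d).choose d := by
        have := Nat.choose_le_middle 1 (2 * d)
        rwa [Nat.mul_div_cancel_left d (by norm_num : 0 < 2)] at this
      rw [Nat.choose_one_right] at h4
      omega
    have h5 : (2 : ℝ) ≤ (((2 * d).choose d : ℕ) : ℝ) := by exact_mod_cast h3
    have h6 : c ≤ 1 / 2 := by
      rw [hc]
      exact one_div_le_one_div_of_le (by norm_num) h5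
    linarith
  have hfin : 1 - s / N ≤ √(1 - 2 * c) + ε := by
    have h3 : 1 - s / N ≤ √(1 - 2 * c + ε ^ 2) := Real.le_sqrt_of_sq_le hσ
    have h4 : √(1 - 2 * c + ε ^ 2) ≤ √(1 - 2 * c) + ε := by
      rw [Real.sqrt_le_left (by positivity)]
      have h5 := Real.sq_sqrt hx
      have h6 := Real.sqrt_nonneg (1 - 2 * c)
      nlinarith
    linarith
  have hcc : cc d = 1 - √(1 - 2 * c) := by
    unfold cc
    rw [hc]
    congr 2
    ring
  rw [← hN, ← hs, hcc]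
  have h7 : (1 - √(1 - 2 * c) - ε) ≤ s / N := by linarith
  rwa [le_div_iff₀ hNpos] at h7

end Pool.SQA
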